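import Pool.Agent.Helper68.Dom.Goals

/-! # SING of project DOM -/

namespace NApexGraphs.Dom.Helper26

open SimpleGraph NApexGraphs NApexGraphs.Dom

variable {V : Type}

/-- `K₃,₃` from six sets, explicit list of facts -/
theorem kk {G : SimpleGraph V} {Z : Set V} {A0 A1 A2 B0 B1 B2 : Set V}
    (hc : Conn G A0 ∧ Conn G A1 ∧ Conn G A2 ∧ Conn G B0 ∧ Conn G B1 ∧ Conn G B2)
    (hd : (Disjoint A0 A1 ∧ Disjoint A0 A2 ∧ Disjoint A0 B0 ∧ Disjoint A0 B1 ∧ Disjoint A0 B2) ∧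
      (Disjoint A1 A2 ∧ Disjoint A1 B0 ∧ Disjoint A1 B1 ∧ Disjoint A1 B2) ∧
      (Disjoint A2 B0 ∧ Disjoint A2 B1 ∧ Disjoint A2 B2) ∧ (Disjoint B0 B1 ∧ Disjoint B0 B2) ∧
      Disjoint B1 B2)
    (ht : (Touch G A0 B0 ∧ Touch G A0 B1 ∧ Touch G A0 B2) ∧
      (Touch G A1 B0 ∧ Touch G A1 B1 ∧ Touch G A1 B2) ∧
      (Touch G A2 B0 ∧ Touch G A2 B1 ∧ Touch G A2 B2))
    (hs : A0 ⊆ Z ∧ A1 ⊆ Z ∧ A2 ⊆ Z ∧ B0 ⊆ Z ∧ B1 ⊆ Z ∧ B2 ⊆ Z) : HasK33 G Z := by
  apply hasK33_sets A0 A1 A2 B0 B1 B2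
  · simpa using hc
  · simpa using hd
  · simpa using ht
  · simpa using hs

theorem dss {a b : V} (h : a ≠ b) : Disjoint ({a} : Set V) {b} := by simpa using h

theorem dsl {a : V} {S : Set V} (h : a ∉ S) : Disjoint ({a} : Set V) S :=
  Set.disjoint_singleton_left.2 h

theorem dsr {a : V} {S : Set V} (h : a ∉ S) : Disjoint S ({a} : Set V) :=
  Set.disjoint_singleton_right.2 h

theorem dpl {a b : V} {S : Set V} (h : a ∉ S) (h' : b ∉ S) : Disjoint ({a, b} : Set V) S := by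
  rw [Set.disjoint_left]
  rintro z (rfl | rfl)
  · exact h
  · exact h'

section

variable {G : SimpleGraph V} {u r : V}

theorem adj' {a b : V} (h : G.Adj a b) (ha : a ≠ u) (hb : b ≠ u) :
    (G.deleteEdges {s(u, r)}).Adj a b := by
  rw [SimpleGraph.deleteEdges_adj]
  refine ⟨h, ?_⟩
  simp only [Set.mem_singleton_iff, Sym2.eq_iff]
  rintro (⟨h1, _⟩ | ⟨_, h1⟩)
  · exact ha h1
  · exact hb h1

theorem adju {b : V} (h : G.Adj u b) (hb : b ≠ r) : (G.deleteEdges {s(u, r)}).Adj u b := by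
  rw [SimpleGraph.deleteEdges_adj]
  refine ⟨h, ?_⟩
  simp only [Set.mem_singleton_iff, Sym2.eq_iff]
  rintro (⟨_, h1⟩ | ⟨_, h1⟩)
  · exact hb h1
  · exact h.ne h1.symm

theorem conn' {S : Set V} (h : Conn G S) (hu : u ∉ S) : Conn (G.deleteEdges {s(u, r)}) S :=
  h.mono fun a ha b hb hab => adj' hab (fun h => hu (h ▸ ha)) (fun h => hu (h ▸ hb))

theorem touch' {S T : Set V} (h : Touch G S T) (hS : u ∉ S) (hT : u ∉ T) :
    Touch (G.deleteEdges {s(u, r)}) S T := by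
  obtain ⟨a, ha, b, hb, hab⟩ := h
  exact ⟨a, ha, b, hb, adj' hab (fun h => hS (h ▸ ha)) (fun h => hT (h ▸ hb))⟩

theorem touchu {T : Set V} {b : V} (h : G.Adj u b) (hb : b ≠ r) (hT : b ∈ T) :
    Touch (G.deleteEdges {s(u, r)}) {u} T := ⟨u, rfl, b, hT, adju h hb⟩

end

/-- the common facts -/
structure F (G : SimpleGraph V) (u x p q : V) (X Y : Finset V) (C1 C2 : Set V) (r r2 c d : V) :
    Prop where
  dom : ∀ v, v ≠ u → G.Adj u v
  xu : x ≠ u
  pq : p ≠ q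
  pu : p ≠ u
  px : p ≠ x
  pX : p ∉ X
  qu : q ≠ u
  qx : q ≠ x
  qX : q ∉ X
  uX : u ∉ X
  xX : x ∉ X
  nx : ∀ z, G.Adj x z ↔ z ∈ X ∨ z = u ∨ z = p ∨ z = q
  C1X : ∀ z ∈ C1, z ∉ X
  C2X : ∀ z ∈ C2, z ∉ X
  uC1 : u ∉ C1
  uC2 : u ∉ C2
  xC1 : x ∉ C1
  xC2 : x ∉ C2
  pC1 : p ∉ C1
  pC2 : p ∉ C2
  qC1 : q ∉ C1
  qC2 : q ∉ C2
  dis : Disjoint C1 C2
  k1 : Conn G C1
  k2 : Conn G C2
  t1p : Touch G C1 {p}
  t1q : Touch G C1 {q}
  t2p : Touch G C2 {p}
  t2q : Touch G C2 {q}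
  h1 : r ∈ C1
  h2 : r2 ∈ C2
  s2 : ∀ s ∈ X, G.Adj r2 s
  cd : c ≠ d
  cC : c ∈ C1 ∨ c = p ∨ c = q
  dC : d ∈ C1 ∨ d = p ∨ d = q
  nr : ∀ z, G.Adj r z ↔ z ∈ X ∨ z = u ∨ z = c ∨ z = d
  YT : ∀ z ∈ Y, z ∈ X ∨ z = c ∨ z = d
  uY : u ∉ Y
  rY : r ∉ Y
  pl : ¬ HasK33 (G.deleteEdges {s(u, r)}) ((Y : Set V)ᶜ)

namespace F

variable {G : SimpleGraph V} {u x p q : V} {X Y : Finset V} {C1 C2 : Set V} {r r2 c d : V}

theorem swapcd (h : F G u x p q X Y C1 C2 r r2 c d) : F G u x p q X Y C1 C2 r r2 d c :=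
  { h with
    cd := h.cd.symm
    cC := h.dC
    dC := h.cC
    nr := fun z => by rw [h.nr z]; tauto
    YT := fun z hz => by have := h.YT z hz; tauto }

theorem swappq (h : F G u x p q X Y C1 C2 r r2 c d) : F G u x q p X Y C1 C2 r r2 c d :=
  { h with
    pq := h.pq.symm
    pu := h.qu
    px := h.qx
    pX := h.qX
    qu := h.pu
    qx := h.px
    qX := h.pX
    nx := fun z => by rw [h.nx z]; tauto
    pC1 := h.qC1
    pC2 := h.qC2
    qC1 := h.pC1
    qC2 := h.pC2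
    t1p := h.t1q
    t1q := h.t1p
    t2p := h.t2q
    t2q := h.t2p
    cC := by have := h.cC; tauto
    dC := by have := h.dC; tauto }

theorem cr (h : F G u x p q X Y C1 C2 r r2 c d) : c ≠ r := by
  intro hc
  have := (h.nr c).2 (by tauto)
  rw [hc] at this
  exact G.loopless.irrefl _ this

/-- no neighbour of `r` in `C1` -/
theorem single (h : F G u x p q X Y C1 C2 r r2 c d) (hc : c ∉ C1) (hd : d ∉ C1) : C1 = {r} := by
  apply Set.Subset.antisymm
  · apply Conn.subset_of_closed (A := {r}) h.k1 ⟨r, h.h1, rfl⟩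
    rintro a _ ha b hb hab
    rw [Set.mem_singleton_iff] at ha
    rw [ha, h.nr] at hab
    exfalso
    rcases hab with h1 | h1 | h1 | h1
    · exact h.C1X b hb h1
    · exact h.uC1 (h1 ▸ hb)
    · exact hc (h1 ▸ hb)
    · exact hd (h1 ▸ hb)
  · rintro a rfl
    exact h.h1

theorem rr2 (h : F G u x p q X Y C1 C2 r r2 c d) : r2 ≠ r := by
  intro h1
  exact Set.disjoint_left.1 h.dis h.h1 (h1 ▸ h.h2)

theorem rC2 (h : F G u x p q X Y C1 C2 r r2 c d) : r ∉ C2 := fun h1 =>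
  Set.disjoint_left.1 h.dis h.h1 h1

theorem xr (h : F G u x p q X Y C1 C2 r r2 c d) : x ≠ r := fun h1 => h.xC1 (h1 ▸ h.h1)

theorem pr (h : F G u x p q X Y C1 C2 r r2 c d) : p ≠ r := fun h1 => h.pC1 (h1 ▸ h.h1)

theorem qr (h : F G u x p q X Y C1 C2 r r2 c d) : q ≠ r := fun h1 => h.qC1 (h1 ▸ h.h1)

theorem r2u (h : F G u x p q X Y C1 C2 r r2 c d) : r2 ≠ u := fun h1 => h.uC2 (h1 ▸ h.h2)

theorem cx (h : F G u x p q X Y C1 C2 r r2 c d) : c ≠ x := by
  intro h1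
  rcases h.cC with h2 | h2 | h2
  · exact h.xC1 (h1 ▸ h2)
  · exact h.px (h2 ▸ h1)
  · exact h.qx (h2 ▸ h1)

theorem xY (h : F G u x p q X Y C1 C2 r r2 c d) : x ∉ Y := by
  intro h1
  rcases h.YT x h1 with h2 | h2 | h2
  · exact h.xX h2
  · exact h.cx h2.symm
  · exact h.swapcd.cx h2.symm

/-- case (a) -/
theorem caseA (h : F G u x p q X Y C1 C2 r r2 c d) (hc : c ∉ Y) (hd : d ∉ Y) :
    C1 = {r} := by
  by_contra hne
  have hz : ∃ z ∈ C1, z ≠ r := by
    by_contra hcon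
    push Not at hcon
    exact hne (Set.Subset.antisymm hcon (by rintro a rfl; exact h.h1))
  obtain ⟨z, hz, hzr⟩ := hz
  have hzu : z ≠ u := fun h1 => h.uC1 (h1 ▸ hz)
  have YX : ∀ z ∈ Y, z ∈ X := by
    intro z hz
    rcases h.YT z hz with h1 | h1 | h1
    · exact h1
    · exact absurd (h1 ▸ hz) hc
    · exact absurd (h1 ▸ hz) hd
  apply h.pl
  apply kk (A0 := {u}) (A1 := {p}) (A2 := {q}) (B0 := {x}) (B1 := C1) (B2 := C2)
  · exact ⟨Conn.singleton _ _, Conn.singleton _ _, Conn.singleton _ _, Conn.singleton _ _,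
      conn' h.k1 h.uC1, conn' h.k2 h.uC2⟩
  · exact ⟨⟨dss h.pu.symm, dss h.qu.symm, dss h.xu.symm, dsl h.uC1, dsl h.uC2⟩,
      ⟨dss h.pq, dss h.px, dsl h.pC1, dsl h.pC2⟩, ⟨dss h.qx, dsl h.qC1, dsl h.qC2⟩,
      ⟨dsl h.xC1, dsl h.xC2⟩, h.dis⟩
  · refine ⟨⟨touchu (h.dom _ h.xu) h.xr rfl, touchu (h.dom _ hzu) hzr hz,
      touchu (h.dom _ h.r2u) h.rr2 h.h2⟩, ⟨?_, ?_, ?_⟩, ⟨?_, ?_, ?_⟩⟩
    · exact touch_singleton.2 (adj' ((h.nx p).2 (by tauto)).symm h.pu h.xu)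
    · exact (touch' h.t1p h.uC1 (fun h1 => h.pu h1.symm)).symm
    · exact (touch' h.t2p h.uC2 (fun h1 => h.pu h1.symm)).symm
    · exact touch_singleton.2 (adj' ((h.nx q).2 (by tauto)).symm h.qu h.xu)
    · exact (touch' h.t1q h.uC1 (fun h1 => h.qu h1.symm)).symm
    · exact (touch' h.t2q h.uC2 (fun h1 => h.qu h1.symm)).symm
  · refine ⟨?_, ?_, ?_, ?_, ?_, ?_⟩
    · rintro a rfl h1
      exact h.uY h1
    · rintro a rfl h1
      exact h.pX (YX _ h1)
    · rintro a rfl h1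
      exact h.qX (YX _ h1)
    · rintro a rfl h1
      exact h.xY h1
    · intro a ha h1
      exact h.C1X _ ha (YX _ h1)
    · intro a ha h1
      exact h.C2X _ ha (YX _ h1)

/-- the `K₃,₃` with the sides `x, C2, u` and three common neighbours -/
theorem kxc (h : F G u x p q X Y C1 C2 r r2 c d) (hY : ∀ z ∈ C2, z ∉ Y) (a b e : V)
    (ab : a ≠ b) (ae : a ≠ e) (be : b ≠ e)
    (ha : ∀ z, z = a ∨ z = b ∨ z = e → z ∉ Y ∧ z ≠ u ∧ z ≠ r ∧ z ∉ C2 ∧ G.Adj x z ∧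
      Touch G C2 {z}) : False := by
  obtain ⟨a1, a2, a3, a4, a5, a6⟩ := ha a (by tauto)
  obtain ⟨b1, b2, b3, b4, b5, b6⟩ := ha b (by tauto)
  obtain ⟨e1, e2, e3, e4, e5, e6⟩ := ha e (by tauto)
  apply h.pl
  apply kk (A0 := {x}) (A1 := C2) (A2 := {u}) (B0 := {a}) (B1 := {b}) (B2 := {e})
  · exact ⟨Conn.singleton _ _, conn' h.k2 h.uC2, Conn.singleton _ _, Conn.singleton _ _,
      Conn.singleton _ _, Conn.singleton _ _⟩
  · exact ⟨⟨dsl h.xC2, dss h.xu, dss a5.ne, dss b5.ne, dss e5.ne⟩,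
      ⟨dsr h.uC2, dsr a4, dsr b4, dsr e4⟩, ⟨dss a2.symm, dss b2.symm, dss e2.symm⟩,
      ⟨dss ab, dss ae⟩, dss be⟩
  · refine ⟨⟨?_, ?_, ?_⟩, ⟨?_, ?_, ?_⟩, ⟨?_, ?_, ?_⟩⟩
    · exact touch_singleton.2 (adj' a5 h.xu a2)
    · exact touch_singleton.2 (adj' b5 h.xu b2)
    · exact touch_singleton.2 (adj' e5 h.xu e2)
    · exact touch' a6 h.uC2 (fun h1 => a2 h1.symm)
    · exact touch' b6 h.uC2 (fun h1 => b2 h1.symm)
    · exact touch' e6 h.uC2 (fun h1 => e2 h1.symm)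
    · exact touchu (h.dom _ a2) a3 rfl
    · exact touchu (h.dom _ b2) b3 rfl
    · exact touchu (h.dom _ e2) e3 rfl
  · refine ⟨?_, hY, ?_, ?_, ?_, ?_⟩
    · rintro z rfl h1
      exact h.xY h1
    · rintro z rfl h1
      exact h.uY h1
    · rintro z rfl h1
      exact a1 h1
    · rintro z rfl h1
      exact b1 h1
    · rintro z rfl h1
      exact e1 h1

theorem good_s (h : F G u x p q X Y C1 C2 r r2 c d) {s : V} (hs : s ∈ X) (hsY : s ∉ Y) :
    s ∉ Y ∧ s ≠ u ∧ s ≠ r ∧ s ∉ C2 ∧ G.Adj x s ∧ Touch G C2 {s} := by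
  refine ⟨hsY, fun h1 => h.uX (h1 ▸ hs), fun h1 => h.C1X r h.h1 (h1 ▸ hs),
    fun h1 => h.C2X s h1 hs, (h.nx s).2 (Or.inl hs), ⟨r2, h.h2, s, rfl, h.s2 s hs⟩⟩

theorem good_p (h : F G u x p q X Y C1 C2 r r2 c d) (hpY : p ∉ Y) :
    p ∉ Y ∧ p ≠ u ∧ p ≠ r ∧ p ∉ C2 ∧ G.Adj x p ∧ Touch G C2 {p} :=
  ⟨hpY, h.pu, h.pr, h.pC2, (h.nx p).2 (by tauto), h.t2p⟩

/-- case (b) with `d = p` and `e = q` -/
theorem caseB1 (h : F G u x p q X Y C1 C2 r r2 c d) {s : V} (hs : s ∈ X) (hsY : s ∉ Y)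
    (hcY : c ∉ Y) (hdp : d = p) : C1 = {r} ∧ c = q := by
  have dC1 : d ∉ C1 := by rw [hdp]; exact h.pC1
  by_cases hcq : c = q
  · refine ⟨h.single ?_ dC1, hcq⟩
    rw [hcq]
    exact h.qC1
  · exfalso
    have cC1 : c ∈ C1 := by
      rcases h.cC with h1 | h1 | h1
      · exact h1
      · exact absurd (h1.trans hdp.symm) h.cd
      · exact absurd h1 hcq
    have rc : G.Adj r c := (h.nr c).2 (by tauto)
    have nbr : ∀ y ∈ C1, G.Adj r y → y = c := by
      intro y hy hry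
      rw [h.nr] at hry
      rcases hry with h1 | h1 | h1 | h1
      · exact absurd h1 (h.C1X y hy)
      · exact absurd (h1 ▸ hy) h.uC1
      · exact h1
      · exact absurd (h1 ▸ hy) dC1
    -- `C1 \ {r}` is connected
    have k3 : Conn G (C1 \ {r}) := by
      refine ⟨⟨c, cC1, h.cr⟩, ?_⟩
      intro A hA hne hcl
      by_cases hcA : c ∈ A
      · have h1 : C1 ⊆ A ∪ {r} := by
          apply h.k1.subset_of_closed ⟨r, h.h1, Or.inr rfl⟩
          rintro y _ (hy | hy) z hz hyz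
          · by_cases hzr : z = r
            · exact Or.inr hzr
            · exact Or.inl (hcl y hy z ⟨hz, hzr⟩ hyz)
          · rw [Set.mem_singleton_iff] at hy
            rw [hy] at hyz
            rw [nbr z hz hyz]
            exact Or.inl hcA
        rintro z ⟨hz, hzr⟩
        rcases h1 hz with h2 | h2
        · exact h2
        · exact absurd h2 hzr
      · exfalso
        obtain ⟨z, hz⟩ := hne
        have h1 : C1 ⊆ A := by
          apply h.k1.subset_of_closed ⟨z, (hA hz).1, hz⟩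
          intro y _ hy w hw hyw
          by_cases hwr : w = r
          · exfalso
            rw [hwr] at hyw
            exact hcA (nbr y (hA hy).1 hyw.symm ▸ hy)
          · exact hcl y hy w ⟨hw, hwr⟩ hyw
        exact (hA (h1 h.h1)).2 rfl
    have t3 : Touch G (C1 \ {r}) {q} := by
      obtain ⟨z, hz, w, hw, hzw⟩ := h.t1q
      refine ⟨z, ⟨hz, ?_⟩, w, hw, hzw⟩
      intro hzr
      rw [Set.mem_singleton_iff] at hzr hw
      rw [hzr, hw, h.nr] at hzw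
      rcases hzw with h1 | h1 | h1 | h1
      · exact h.qX h1
      · exact h.qu h1
      · exact hcq h1.symm
      · exact h.pq (h1.trans hdp).symm
    have su : s ≠ u := (h.good_s hs hsY).2.1
    have sr : s ≠ r := (h.good_s hs hsY).2.2.1
    have sC2 : s ∉ C2 := (h.good_s hs hsY).2.2.2.1
    have xs : G.Adj x s := (h.good_s hs hsY).2.2.2.2.1
    have ru : r ≠ u := fun h1 => h.uC1 (h1 ▸ h.h1)
    have rs : G.Adj r s := (h.nr s).2 (Or.inl hs)
    have sC1 : s ∉ C1 := fun h1 => h.C1X s h1 hs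
    apply h.pl
    apply kk (A0 := {s, r}) (A1 := {q}) (A2 := {u}) (B0 := {x}) (B1 := C2) (B2 := C1 \ {r})
    · refine ⟨?_, Conn.singleton _ _, Conn.singleton _ _, Conn.singleton _ _,
        conn' h.k2 h.uC2, conn' k3 fun h1 => h.uC1 h1.1⟩
      exact conn_pair (adj' rs.symm su ru)
    · refine ⟨⟨dpl ?_ ?_, dpl ?_ ?_, dpl ?_ ?_, dpl ?_ ?_, dpl ?_ ?_⟩,
        ⟨dss h.qu, dss h.qx, dsl h.qC2, dsl fun h1 => h.qC1 h1.1⟩,
        ⟨dss h.xu.symm, dsl h.uC2, dsl fun h1 => h.uC1 h1.1⟩,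
        ⟨dsl h.xC2, dsl fun h1 => h.xC1 h1.1⟩, ?_⟩
      · rintro rfl; exact h.qX hs
      · exact h.qr.symm
      · exact su
      · exact ru
      · exact xs.ne.symm
      · exact h.xr.symm
      · exact sC2
      · exact h.rC2
      · exact fun h1 => sC1 h1.1
      · exact fun h1 => h1.2 rfl
      · exact Disjoint.mono_right Set.sdiff_subset h.dis.symm
    · refine ⟨⟨?_, ?_, ?_⟩, ⟨?_, ?_, ?_⟩, ⟨?_, ?_, ?_⟩⟩
      · exact ⟨s, Or.inl rfl, x, rfl, adj' xs.symm su h.xu⟩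
      · exact ⟨s, Or.inl rfl, r2, h.h2, adj' (h.s2 s hs).symm su h.r2u⟩
      · exact ⟨r, Or.inr rfl, c, ⟨cC1, h.cr⟩, adj' rc ru fun h1 => h.uC1 (h1 ▸ cC1)⟩
      · exact touch_singleton.2 (adj' ((h.nx q).2 (by tauto)).symm h.qu h.xu)
      · exact (touch' h.t2q h.uC2 (fun h1 => h.qu h1.symm)).symm
      · exact (touch' t3 (fun h1 => h.uC1 h1.1) (fun h1 => h.qu h1.symm)).symm
      · exact touchu (h.dom _ h.xu) h.xr rfl
      · exact touchu (h.dom _ h.r2u) h.rr2 h.h2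
      · exact touchu (h.dom _ fun h1 => h.uC1 (h1 ▸ cC1)) h.cr ⟨cC1, h.cr⟩
    · refine ⟨?_, ?_, ?_, ?_, ?_, ?_⟩
      · rintro z (rfl | rfl) h1
        · exact hsY h1
        · exact h.rY h1
      · rintro z rfl h1
        rcases h.YT _ h1 with h2 | h2 | h2
        · exact h.qX h2
        · exact hcq h2.symm
        · exact h.pq (h2.trans hdp).symm
      · rintro z rfl h1
        exact h.uY h1
      · rintro z rfl h1
        exact h.xY h1
      · intro z hz h1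
        rcases h.YT _ h1 with h2 | h2 | h2
        · exact h.C2X _ hz h2
        · exact hcY (h2 ▸ h1)
        · exact h.pC2 (hdp ▸ h2 ▸ hz)
      · intro z hz h1
        rcases h.YT _ h1 with h2 | h2 | h2
        · exact h.C1X _ hz.1 h2
        · exact hcY (h2 ▸ h1)
        · exact dC1 (h2 ▸ hz.1)

/-- case (b) -/
theorem caseB (h : F G u x p q X Y C1 C2 r r2 c d) {s : V} (hs : s ∈ X) (hsY : s ∉ Y)
    (hcY : c ∉ Y) : C1 = {r} ∧ ((c = p ∧ d = q) ∨ (c = q ∧ d = p)) := by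
  by_cases hdp : d = p
  · obtain ⟨h1, h2⟩ := h.caseB1 hs hsY hcY hdp
    exact ⟨h1, Or.inr ⟨h2, hdp⟩⟩
  by_cases hdq : d = q
  · obtain ⟨h1, h2⟩ := h.swappq.caseB1 hs hsY hcY hdq
    exact ⟨h1, Or.inl ⟨h2, hdq⟩⟩
  exfalso
  have dC1 : d ∈ C1 := by
    rcases h.dC with h1 | h1 | h1
    · exact h1
    · exact absurd h1 hdp
    · exact absurd h1 hdq
  have hpY : p ∉ Y := by
    intro h1
    rcases h.YT _ h1 with h2 | h2 | h2
    · exact h.pX h2
    · exact hcY (h2 ▸ h1)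
    · exact hdp h2.symm
  have hqY : q ∉ Y := by
    intro h1
    rcases h.YT _ h1 with h2 | h2 | h2
    · exact h.qX h2
    · exact hcY (h2 ▸ h1)
    · exact hdq h2.symm
  apply h.kxc (a := p) (b := q) (e := s) _ h.pq
  · rintro rfl; exact h.pX hs
  · rintro rfl; exact h.qX hs
  · rintro z (rfl | rfl | rfl)
    · exact h.good_p hpY
    · exact h.swappq.good_p hqY
    · exact h.good_s hs hsY
  · intro z hz h1
    rcases h.YT _ h1 with h2 | h2 | h2
    · exact h.C2X _ hz h2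
    · exact hcY (h2 ▸ h1)
    · exact Set.disjoint_left.1 h.dis dC1 (h2 ▸ hz)

/-- case (c), first half -/
theorem caseC1 (h : F G u x p q X Y C1 C2 r r2 c d) {s s' : V} (hs : s ∈ X) (hsY : s ∉ Y)
    (hs' : s' ∈ X) (hsY' : s' ∉ Y) (hss : s ≠ s') : p = c ∨ p = d := by
  by_contra hcon
  push Not at hcon
  have hpY : p ∉ Y := by
    intro h1
    rcases h.YT _ h1 with h2 | h2 | h2
    · exact h.pX h2
    · exact hcon.1 h2
    · exact hcon.2 h2
  apply h.kxc (a := s) (b := s') (e := p) _ hss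
  · rintro rfl; exact h.pX hs
  · rintro rfl; exact h.pX hs'
  · rintro z (rfl | rfl | rfl)
    · exact h.good_s hs hsY
    · exact h.good_s hs' hsY'
    · exact h.good_p hpY
  · intro z hz h1
    rcases h.YT _ h1 with h2 | h2 | h2
    · exact h.C2X _ hz h2
    · rcases h.cC with h3 | h3 | h3
      · exact Set.disjoint_left.1 h.dis h3 (h2 ▸ hz)
      · exact h.pC2 (h3 ▸ h2 ▸ hz)
      · exact h.qC2 (h3 ▸ h2 ▸ hz)
    · rcases h.dC with h3 | h3 | h3
      · exact Set.disjoint_left.1 h.dis h3 (h2 ▸ hz)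
      · exact h.pC2 (h3 ▸ h2 ▸ hz)
      · exact h.qC2 (h3 ▸ h2 ▸ hz)

end F

theorem gSING : Goals.PSETS → Goals.SING := by
  classical
  intro hP V _ G n u x p q X C1 C2 r1 r2 h c d hL
  obtain ⟨cd, hcR, hdR, nr⟩ := hL
  have set := h.xc.set
  have h1R := h.c1.sub h.h1
  have ru : r1 ≠ u := h1R.1.2.1
  obtain ⟨Y, hY⟩ := hP V G n u r1 set ru
  have mem1 : ∀ z ∈ C1, z ∉ X ∧ z ≠ u ∧ z ≠ x ∧ z ≠ p ∧ z ≠ q := by
    intro z hz
    have := h.c1.sub hz
    refine ⟨this.1.1, this.1.2.1, this.1.2.2, fun h1 => this.2 (Or.inl h1),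
      fun h1 => this.2 (Or.inr h1)⟩
  have mem2 : ∀ z ∈ C2, z ∉ X ∧ z ≠ u ∧ z ≠ x ∧ z ≠ p ∧ z ≠ q := by
    intro z hz
    have := h.c2.sub hz
    refine ⟨this.1.1, this.1.2.1, this.1.2.2, fun h1 => this.2 (Or.inl h1),
      fun h1 => this.2 (Or.inr h1)⟩
  have inC : ∀ z, z ∈ Rest u x X → G.Adj r1 z → z ∈ C1 ∨ z = p ∨ z = q := by
    intro z hz hrz
    by_cases hpq : z = p ∨ z = q
    · exact Or.inr hpq
    · exact Or.inl (h.c1.closed r1 h.h1 z ⟨hz, fun h1 => hpq h1⟩ hrz)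
  have hF : F G u x p q X Y C1 C2 r1 r2 c d :=
    { dom := set.dom
      xu := h.xc.xu
      pq := h.xc.pq
      pu := h.xc.hp.2.1
      px := h.xc.hp.2.2
      pX := h.xc.hp.1
      qu := h.xc.hq.2.1
      qx := h.xc.hq.2.2
      qX := h.xc.hq.1
      uX := h.xc.ps.hu
      xX := h.xc.ps.hx
      nx := h.xc.nx
      C1X := fun z hz => (mem1 z hz).1
      C2X := fun z hz => (mem2 z hz).1
      uC1 := fun h1 => (mem1 _ h1).2.1 rfl
      uC2 := fun h1 => (mem2 _ h1).2.1 rfl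
      xC1 := fun h1 => (mem1 _ h1).2.2.1 rfl
      xC2 := fun h1 => (mem2 _ h1).2.2.1 rfl
      pC1 := fun h1 => (mem1 _ h1).2.2.2.1 rfl
      pC2 := fun h1 => (mem2 _ h1).2.2.2.1 rfl
      qC1 := fun h1 => (mem1 _ h1).2.2.2.2 rfl
      qC2 := fun h1 => (mem2 _ h1).2.2.2.2 rfl
      dis := h.dis
      k1 := h.c1.conn
      k2 := h.c2.conn
      t1p := h.t1p
      t1q := h.t1q
      t2p := h.t2p
      t2q := h.t2q
      h1 := h.h1
      h2 := h.h2
      s2 := h.s2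
      cd := cd
      cC := inC c hcR ((nr c).2 (by tauto))
      dC := inC d hdR ((nr d).2 (by tauto))
      nr := nr
      YT := by
        intro z hz
        have h1 := (nr z).1 (hY.nbr z hz)
        rcases h1 with h1 | h1 | h1 | h1
        · exact Or.inl h1
        · exact absurd (h1 ▸ hz) hY.hu
        · exact Or.inr (Or.inl h1)
        · exact Or.inr (Or.inr h1)
      uY := hY.hu
      rY := hY.hx
      pl := hY.pl.2 }
  -- exactly two elements are missed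
  have cX : c ∉ insert d X := by
    rw [Finset.mem_insert]
    rintro (h1 | h1)
    · exact cd h1
    · exact hcR.1 h1
  have hcard : (insert c (insert d X)).card = n + 2 := by
    rw [Finset.card_insert_of_notMem cX, Finset.card_insert_of_notMem hdR.1, h.xc.ps.card]
  have hsub : Y ⊆ insert c (insert d X) := by
    intro z hz
    rw [Finset.mem_insert, Finset.mem_insert]
    have := hF.YT z hz
    tauto
  have h2 : (insert c (insert d X) \ Y).card = 2 := by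
    rw [Finset.card_sdiff_of_subset hsub, hcard, hY.card]
    omega
  obtain ⟨a, b, hab, hTY⟩ := Finset.card_eq_two.1 h2
  have ha : a ∈ insert c (insert d X) \ Y := by rw [hTY]; simp
  have hb : b ∈ insert c (insert d X) \ Y := by rw [hTY]; simp
  rw [Finset.mem_sdiff, Finset.mem_insert, Finset.mem_insert] at ha hb
  have final : C1 = {r1} → C1 = {r1} ∧ ((c = p ∧ d = q) ∨ (c = q ∧ d = p)) := by
    intro h1
    refine ⟨h1, ?_⟩
    have e1 := hF.cC
    have e2 := hF.dC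
    rw [h1, Set.mem_singleton_iff] at e1 e2
    have e3 := hF.cr
    have e4 := hF.swapcd.cr
    rcases e1 with e1 | e1 | e1
    · exact absurd e1 e3
    · rcases e2 with e2 | e2 | e2
      · exact absurd e2 e4
      · exact absurd (e1.trans e2.symm) cd
      · exact Or.inl ⟨e1, e2⟩
    · rcases e2 with e2 | e2 | e2
      · exact absurd e2 e4
      · exact Or.inr ⟨e1, e2⟩
      · exact absurd (e1.trans e2.symm) cd
  have sw : (C1 = {r1} ∧ ((d = p ∧ c = q) ∨ (d = q ∧ c = p))) →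
      C1 = {r1} ∧ ((c = p ∧ d = q) ∨ (c = q ∧ d = p)) := by tauto
  obtain ⟨ha, haY⟩ := ha
  obtain ⟨hb, hbY⟩ := hb
  rcases ha with rfl | rfl | ha
  · rcases hb with rfl | rfl | hb
    · exact absurd rfl hab
    · exact final (hF.caseA haY hbY)
    · exact hF.caseB hb hbY haY
  · rcases hb with rfl | rfl | hb
    · exact final (hF.caseA hbY haY)
    · exact absurd rfl hab
    · exact sw (hF.swapcd.caseB hb hbY haY)
  · rcases hb with rfl | rfl | hb
    · exact hF.caseB ha haY hbY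
    · exact sw (hF.swapcd.caseB ha haY hbY)
    · have e1 := hF.caseC1 ha haY hb hbY hab
      have e2 := hF.swappq.caseC1 ha haY hb hbY hab
      have e3 := h.xc.pq
      have e4 : (c = p ∧ d = q) ∨ (c = q ∧ d = p) := by
        rcases e1 with e1 | e1 <;> rcases e2 with e2 | e2
        · exact absurd (e1.trans e2.symm) e3
        · exact Or.inl ⟨e1.symm, e2.symm⟩
        · exact Or.inr ⟨e2.symm, e1.symm⟩
        · exact absurd (e1.trans e2.symm) e3
      refine ⟨hF.single ?_ ?_, e4⟩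
      · rcases e4 with ⟨e5, _⟩ | ⟨e5, _⟩ <;> rw [e5]
        · exact hF.pC1
        · exact hF.qC1
      · rcases e4 with ⟨_, e5⟩ | ⟨_, e5⟩ <;> rw [e5]
        · exact hF.qC1
        · exact hF.pC1

end NApexGraphs.Dom.Helper26
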